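import Mathlib
import Pool.Agent.W693.F511Defs
import Pool.Agent.W693.F511A
import Pool.Agent.W693.F511D
import Pool.Agent.W693.F511E

set_option autoImplicit false

/-!
A real Banach space which has a Cesaro basis, and a `T`-basis for every consistent matrix
`T` possessing long windows of uniformly small mass (for instance, every consistent matrix with
`sup_n |t n m| → 0`), but which has no Schauder basis. The definitions `IsConsistent`,
`IsTriangular`, `psum`, `TExpansion`, `IsTBasis`, `IsSchauderBasis`, `cesaro`, `HasLightWindows`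
are in `Pool/Agent/W693/F511Defs.lean`.
-/

open Filter Topology
open Pool.Agent.Helper802.JB Pool.Agent.Helper802.JB.N_choose_data
open Pool.Agent.W693.F511

namespace Pool.Agent.Results.MP_f511bc_an.CesaroNoSchauder

/-- There is a real Banach space with a Cesaro basis (the Cesaro matrix being consistent and
triangular), with a `T`-basis for every consistent matrix `T` having light windows, and without
a Schauder basis. -/
theorem result : ∃ (X : Type) (_ : NormedAddCommGroup X) (_ : NormedSpace ℝ X)
    (_ : CompleteSpace X),
    (IsConsistent cesaro ∧ IsTriangular cesaro ∧ ∃ x : ℕ → X, IsTBasis cesaro x) ∧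
    (∀ t : ℕ → ℕ → ℝ, IsConsistent t → HasLightWindows t → ∃ x : ℕ → X, IsTBasis t x) ∧
    ¬ ∃ x : ℕ → X, IsSchauderBasis x := by
  obtain ⟨k, n, pr, w, h2, h4, -, -, hnk, -, hj, hinj, hnp, -⟩ := choose_data
  have hF : ∀ m, Fact (1 ≤ ENNReal.ofReal (pr m)) := fun m =>
    ⟨by rw [ENNReal.one_le_ofReal]; linarith [h2 m]⟩
  have hc : CompleteSpace (ETot k n (fun m => ENNReal.ofReal (pr m)) w) :=
    (Pool.Agent.Helper802.JB.N_ETot_closed.ETot_closed k n _ w).completeSpace_coe
  refine ⟨(ETot k n (fun m => ENNReal.ofReal (pr m)) w) × L2, inferInstance, inferInstance,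
    inferInstance, ⟨cesaro_consistent, cesaro_triangular, ?_⟩, ?_, ?_⟩
  · exact etot_tbasis k n pr h2 w hinj cesaro cesaro_consistent cesaro_light
  · intro t ht hlw
    exact etot_tbasis k n pr h2 w hinj t ht hlw
  · exact prod_no_basis k n pr h2 h4 hj w hnk hinj hnp

end Pool.Agent.Results.MP_f511bc_an.CesaroNoSchauder
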